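import Pool.Agent.H501Z.Sum.Defs
import Pool.Agent.H501Z.Sum.Main
import Pool.Agent.Helper292.ForceCH

set_option autoImplicit false

namespace Pool.Agent.Results.MP_2a01b0_gt.AIndependent

open Pool.Agent.H501Z.Sum Pool.Agent.Helper292.ForceCH

universe u

/-- The continuum hypothesis can be forced; the answer is negative under the continuum
hypothesis or if `d < c`, and it is positive if `u < g`. -/
theorem result :
    (∃ (P : Type) (_ : Preorder P), Nonempty P ∧
      ∀ p : P, p ∈ OmegaOnePreserved P ∧ p ∈ CHHolds P) ∧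
    ((Cardinal.continuum.{0} = Cardinal.aleph 1 ∨ dNum < Cardinal.continuum) →
      ∃ Y : Set (ℕ → ℕ), Y.Infinite ∧ SumStar Y ∧ ¬ IsMenger Y) ∧
    (uNum < gNum →
      ∀ (X : Type u) [TopologicalSpace X] [T35Space X] [Infinite X], SumStar X → IsMenger X) := by
  refine ⟨?_, counterexample, fun h X _ _ _ hS => menger_of_star h X hS⟩
  obtain ⟨P, i, h1, h2⟩ := exists_forcing
  exact ⟨P, i, h1, fun p => ⟨(h2 p).1, (h2 p).2.2⟩⟩

end Pool.Agent.Results.MP_2a01b0_gt.AIndependent
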